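import Pool.Agent.H31.PC.Targets
import Mathlib.Algebra.Order.Antidiag.FinsuppEquiv

/-!
# Module NN of the board pc_modules
-/

set_option autoImplicit false

open Finset MvPolynomial Pool.Agent.H31.PC Pool.Agent.H31.RZ

namespace Pool.Agent.H50.PC.NN

theorem pf_NN : T_NN := by
  intro e
  have h : Pool.Agent.H31.RZ.NN 2 e = (e + 2).choose 2 := by
    rw [Pool.Agent.H31.RZ.NN, Mon, Finset.card_finsuppAntidiag_nat_eq_choose, Finset.card_univ,
      Fintype.card_fin]
    have : 2 + 1 + e - 1 = e + 2 := by omega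
    rw [this]
    exact (Nat.choose_symm_add).symm ▸ rfl
  rw [h, Nat.choose_two_right]
  have h2 : e + 2 - 1 = e + 1 := by omega
  rw [h2, Nat.div_mul_cancel, mul_comm]
  rw [mul_comm]
  exact (Nat.even_mul_succ_self (e + 1)).two_dvd

end Pool.Agent.H50.PC.NN
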